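import Pool.Agent.GRA.StmtsK
import Pool.Agent.Helper47_BSE.Fin
import Pool.Agent.Helper64_FR.Basic

/-!
Squad GRA, row KMB: the mean field bound for the Bose representations.
-/

set_option autoImplicit false

open MeasureTheory Matrix Finset
open scoped ComplexConjugate

namespace Pool.Agent.GRA.H88

open Pool.Agent.Helper64_FR Pool.Agent.UTR Pool.Agent.BSE Pool.Agent.Helper64_FR.FIX

variable {n : ℕ}

theorem conj_entry (τ : Equiv.Perm (Fin n)) (h : UU n) (i j : Fin n) :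
    ((pm τ * h * (pm τ)⁻¹ : UU n) : Matrix (Fin n) (Fin n) ℂ) i j =
      (h : Matrix (Fin n) (Fin n) ℂ) (τ⁻¹ i) (τ⁻¹ j) := by
  have h1 : (((pm τ)⁻¹ : UU n) : Matrix (Fin n) (Fin n) ℂ) = pmM τ⁻¹ := by
    rw [← map_inv]
    rfl
  show (pmM τ * (h : Matrix (Fin n) (Fin n) ℂ) * (((pm τ)⁻¹ : UU n) :
    Matrix (Fin n) (Fin n) ℂ)) i j = _
  rw [h1, Matrix.mul_apply, Finset.sum_eq_single (τ⁻¹ j)]
  · rw [Matrix.mul_apply, Finset.sum_eq_single (τ⁻¹ i)]
    · simp [pmM]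
    · intro b _ hb
      have h2 : ¬ i = τ b := fun h3 => hb (by rw [h3]; simp)
      simp [pmM, h2]
    · intro h2
      exact absurd (Finset.mem_univ _) h2
  · intro b _ hb
    have h2 : pmM τ⁻¹ b j = 0 := by
      show (if b = τ⁻¹ j then (1 : ℂ) else 0) = 0
      rw [if_neg hb]
    rw [h2, mul_zero]
  · intro h2
    exact absurd (Finset.mem_univ _) h2

theorem conj_mem (τ : Equiv.Perm (Fin n)) {B : Finset (Fin n)} {h : UU n} (hh : h ∈ UB B) :
    pm τ * h * (pm τ)⁻¹ ∈ UB (B.map τ.toEmbedding) := by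
  intro i j hij
  rw [conj_entry]
  have hh' : ∀ a b, (a ∉ B ∨ b ∉ B) →
    (h : Matrix (Fin n) (Fin n) ℂ) a b = if a = b then 1 else 0 := hh
  have hm : ∀ a : Fin n, a ∉ B.map τ.toEmbedding → τ⁻¹ a ∉ B := by
    intro a ha h1
    apply ha
    rw [Finset.mem_map]
    exact ⟨τ⁻¹ a, h1, by simp⟩
  rw [hh' _ _ (hij.imp (hm i) (hm j))]
  simp

theorem map_map_inv (τ : Equiv.Perm (Fin n)) (B : Finset (Fin n)) :
    (B.map τ.toEmbedding).map (τ⁻¹).toEmbedding = B := by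
  have h1 : τ.toEmbedding.trans (τ⁻¹).toEmbedding = Function.Embedding.refl _ := by
    ext a
    show (((τ⁻¹ (τ a) : Fin n)) : ℕ) = a
    simp
  rw [Finset.map_map, h1, Finset.map_refl]

theorem conj_mem' (τ : Equiv.Perm (Fin n)) {B : Finset (Fin n)} {h : UU n}
    (hh : h ∈ UB (B.map τ.toEmbedding)) : (pm τ)⁻¹ * h * pm τ ∈ UB B := by
  have h1 := conj_mem τ⁻¹ hh
  rw [map_map_inv, map_inv, inv_inv] at h1
  exact h1

theorem op_mul_apply (ρ : URep n) (g h : UU n) (x : ρ.Sp) :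
    ρ.op (g * h) x = ρ.op g (ρ.op h x) := by
  rw [FIX.op_mul]
  rfl

theorem op_pm_P (ρ : URep n) (τ : Equiv.Perm (Fin n)) (B : Finset (Fin n)) (x : ρ.Sp) :
    ρ.op (pm τ) (ρ.P B x) = ρ.P (B.map τ.toEmbedding) (ρ.op (pm τ) x) := by
  have h1 : ρ.P (B.map τ.toEmbedding) (ρ.op (pm τ) (ρ.P B x)) = ρ.op (pm τ) (ρ.P B x) := by
    apply P_inv
    intro h hh
    have h2 := P_apply_inv ρ B x _ (conj_mem' τ hh)
    have h3 : h * pm τ = pm τ * ((pm τ)⁻¹ * h * pm τ) := by group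
    rw [← op_mul_apply, h3, op_mul_apply, h2]
  have h4 : ρ.P (B.map τ.toEmbedding) (ρ.op (pm τ) (x - ρ.P B x)) = 0 := by
    refine ext_inner_left ℂ fun y => ?_
    rw [inner_zero_right]
    have h5 : inner ℂ y (ρ.P (B.map τ.toEmbedding) (ρ.op (pm τ) (x - ρ.P B x))) =
        inner ℂ (ρ.P (B.map τ.toEmbedding) y) (ρ.op (pm τ) (x - ρ.P B x)) := by
      conv_lhs => rw [← P_star ρ (B.map τ.toEmbedding)]
      rw [ContinuousLinearMap.star_eq_adjoint, ContinuousLinearMap.adjoint_inner_right]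
    have h6 : inner ℂ (ρ.P (B.map τ.toEmbedding) y) (ρ.op (pm τ) (x - ρ.P B x)) =
        inner ℂ (ρ.op (pm τ)⁻¹ (ρ.P (B.map τ.toEmbedding) y)) (x - ρ.P B x) := by
      rw [inner_op_left, inv_inv]
    have h7 : ∀ h ∈ UB B, ρ.op h (ρ.op (pm τ)⁻¹ (ρ.P (B.map τ.toEmbedding) y)) =
        ρ.op (pm τ)⁻¹ (ρ.P (B.map τ.toEmbedding) y) := by
      intro h hh
      have h8 := P_apply_inv ρ (B.map τ.toEmbedding) y _ (conj_mem τ hh)
      have h9 : h * (pm τ)⁻¹ = (pm τ)⁻¹ * (pm τ * h * (pm τ)⁻¹) := by group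
      rw [← op_mul_apply, h9, op_mul_apply, h8]
    rw [h5, h6, inner_sub_right, inner_P_of_inv ρ B _ x h7, sub_self]
  rw [map_sub, map_sub, h1, sub_eq_zero] at h4
  exact h4.symm

theorem tinv_P (ρ : URep n) (B : Finset (Fin n)) {f : ρ.Sp} (hf : TInv ρ f) :
    TInv ρ (ρ.P B f) := by
  intro i h hh
  have h1 : ρ.P {i} f = f := P_inv ρ {i} f (hf i)
  have h2 : ρ.P {i} (ρ.P B f) = ρ.P B (ρ.P {i} f) :=
    congrArg (fun T : ρ.Sp →L[ℂ] ρ.Sp => T f) (H81.P_comm ρ i B)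
  rw [h1] at h2
  rw [← h2]
  exact P_apply_inv ρ {i} _ h hh

/-- the vectors fixed by the torus and the permutation matrices -/
def VS (ρ : URep n) : Submodule ℂ ρ.Sp where
  carrier := {f | TInv ρ f ∧ SI ρ f}
  add_mem' := by
    rintro a b ⟨ha, ha'⟩ ⟨hb, hb'⟩
    refine ⟨fun i h hh => ?_, fun τ => ?_⟩
    · rw [map_add, ha i h hh, hb i h hh]
    · rw [map_add, ha' τ, hb' τ]
  zero_mem' := ⟨fun i h _ => map_zero _, fun τ => map_zero _⟩
  smul_mem' := by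
    rintro c a ⟨ha, ha'⟩
    refine ⟨fun i h hh => ?_, fun τ => ?_⟩
    · rw [map_smul, ha i h hh]
    · rw [map_smul, ha' τ]

theorem lapOp_apply (ρ : URep n) (w : Finset (Fin n) → ℝ) (f : ρ.Sp) :
    LOW.lapOp ρ w f = ∑ B : Finset (Fin n), (w B : ℂ) • (f - ρ.P B f) := by
  rw [LOW.lapOp_eq, _root_.sum_apply]
  rfl

theorem lap_mem (ρ : URep n) (w : Finset (Fin n) → ℝ)
    (hw : ∀ (τ : Equiv.Perm (Fin n)) B, w (B.map τ.toEmbedding) = w B) {f : ρ.Sp}
    (hf : f ∈ VS ρ) : LOW.lapOp ρ w f ∈ VS ρ := by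
  obtain ⟨h1, h2⟩ := hf
  rw [lapOp_apply]
  refine ⟨fun i h hh => ?_, fun τ => ?_⟩
  · rw [map_sum]
    refine Finset.sum_congr rfl fun B _ => ?_
    rw [map_smul, map_sub, h1 i h hh, tinv_P ρ B h1 i h hh]
  · rw [map_sum]
    have h3 : ∀ B : Finset (Fin n), ρ.op (pm τ) ((w B : ℂ) • (f - ρ.P B f)) =
        (w (τ.finsetCongr B) : ℂ) • (f - ρ.P (τ.finsetCongr B) f) := by
      intro B
      rw [map_smul, map_sub, h2 τ, op_pm_P, h2 τ, Equiv.finsetCongr_apply, hw τ B]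
    rw [Finset.sum_congr rfl fun B _ => h3 B]
    exact Equiv.sum_comp τ.finsetCongr (fun B => (w B : ℂ) • (f - ρ.P B f))

/-- the spectral theorem: a lower bound for the quadratic form -/
theorem rayleigh {E : Type} [NormedAddCommGroup E] [InnerProductSpace ℂ E]
    [FiniteDimensional ℂ E] (T : E →ₗ[ℂ] E) (hT : T.IsSymmetric) (μ : ℝ)
    (h : ∀ (x : ℝ) (v : E), v ≠ 0 → T v = (x : ℂ) • v → μ ≤ x) (f : E) (c : ℝ)
    (hc : inner ℂ f (T f) = (c : ℂ)) : μ * ‖f‖ ^ 2 ≤ c := by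
  have hb : ∀ i, T (hT.eigenvectorBasis rfl i) =
      ((hT.eigenvalues rfl i : ℝ) : ℂ) • hT.eigenvectorBasis rfl i :=
    hT.apply_eigenvectorBasis rfl
  have h1 : ∀ i, μ ≤ hT.eigenvalues rfl i := by
    intro i
    apply h _ (hT.eigenvectorBasis rfl i)
    · intro h0
      have h2 := (hT.eigenvectorBasis rfl).orthonormal.1 i
      rw [h0, norm_zero] at h2
      exact zero_ne_one h2
    · exact hb i
  have h2 : ∀ i, inner ℂ f (hT.eigenvectorBasis rfl i) *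
      inner ℂ (hT.eigenvectorBasis rfl i) (T f) =
      ((hT.eigenvalues rfl i * ‖inner ℂ f (hT.eigenvectorBasis rfl i)‖ ^ 2 : ℝ) : ℂ) := by
    intro i
    rw [← hT, hb i, inner_smul_left, ← inner_conj_symm (hT.eigenvectorBasis rfl i) f]
    rw [Complex.ofReal_mul, Complex.ofReal_pow, ← Complex.mul_conj', Complex.conj_ofReal]
    ring
  have h3 := (hT.eigenvectorBasis rfl).sum_inner_mul_inner f (T f)
  rw [Finset.sum_congr rfl fun i _ => h2 i, hc, ← Complex.ofReal_sum] at h3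
  have h4 : ∑ i, hT.eigenvalues rfl i * ‖inner ℂ f (hT.eigenvectorBasis rfl i)‖ ^ 2 = c := by
    exact_mod_cast h3
  have h5 : ∑ i, ‖inner ℂ f (hT.eigenvectorBasis rfl i)‖ ^ 2 = ‖f‖ ^ 2 :=
    (hT.eigenvectorBasis rfl).sum_sq_norm_inner_left f
  rw [← h4, ← h5, Finset.mul_sum]
  exact Finset.sum_le_sum fun i _ => mul_le_mul_of_nonneg_right (h1 i) (by positivity)

theorem exists_perm {a b c d : Fin n} (hab : a ≠ b) (hcd : c ≠ d) :
    ∃ τ : Equiv.Perm (Fin n), τ a = c ∧ τ b = d := by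
  refine ⟨Equiv.swap (Equiv.swap a c b) d * Equiv.swap a c, ?_, ?_⟩
  · rw [Equiv.Perm.mul_apply, Equiv.swap_apply_left]
    apply Equiv.swap_apply_of_ne_of_ne
    · intro h
      have h1 : Equiv.swap a c a = Equiv.swap a c b := by rw [Equiv.swap_apply_left]; exact h
      exact hab ((Equiv.swap a c).injective h1)
    · exact hcd
  · rw [Equiv.Perm.mul_apply, Equiv.swap_apply_left]

theorem norm_pair (ρ : URep n) {f : ρ.Sp} (hf : SI ρ f) {a b : Fin n} (hab : a ≠ b)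
    (B : Finset (Fin n)) (hB : B.card = 2) : ‖f - ρ.P B f‖ = ‖f - ρ.P {a, b} f‖ := by
  obtain ⟨c, d, hcd, rfl⟩ := Finset.card_eq_two.mp hB
  obtain ⟨τ, h1, h2⟩ := exists_perm hab hcd
  have h3 : ({a, b} : Finset (Fin n)).map τ.toEmbedding = {c, d} := by
    rw [Finset.map_insert, Finset.map_singleton]
    simp only [Equiv.coe_toEmbedding, h1, h2]
  have h4 : ρ.op (pm τ) (f - ρ.P {a, b} f) = f - ρ.P {c, d} f := by
    rw [map_sub, op_pm_P, hf τ, h3]
  rw [← h4, URep.norm_op_apply]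

theorem card_pairs (n : ℕ) :
    ((((Finset.univ : Finset (Finset (Fin n))).filter fun B => B.card = 2).card : ℕ) : ℝ) =
      (n : ℝ) * (n - 1) / 2 := by
  have h1 : ((Finset.univ : Finset (Finset (Fin n))).filter fun B => B.card = 2) =
      (Finset.univ : Finset (Fin n)).powersetCard 2 := by
    ext B
    simp [Finset.mem_powersetCard]
  rw [h1, Finset.card_powersetCard, Finset.card_univ, Fintype.card_fin]
  exact Nat.cast_choose_two ℝ n

theorem kmb (hKGG : KGGStmt) (hKSU : KSUStmt) : KMBStmt := by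
  intro n k hk ρ hρ f hT hS a b hab
  have hspn : SPNStmt := H3.spn
  have hndg : NDGStmt := H69.ndg H3.spn
  have heig : EIGStmt := H69.eig (H17.sch BSE.H47.sc1) H3.spn
  obtain ⟨p, q, hpq, T, hTB⟩ := hρ
  -- the eigenvalues on the subspace
  have hev : ∀ (x : ℝ) (v : ρ.Sp), v ∈ VS ρ → v ≠ 0 → LOW.lapOp ρ (wK n) v = (x : ℂ) • v →
      (3 * (n : ℝ) - 1) / 5 ≤ x := by
    intro x v hv hv0 hx
    have hx' : ρ.lap (wK n) *ᵥ (WithLp.ofLp v) = (x : ℂ) • (WithLp.ofLp v) :=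
      congrArg WithLp.ofLp hx
    have hv' : WithLp.ofLp v ≠ 0 := by
      intro h0
      apply hv0
      have : v = WithLp.toLp 2 (WithLp.ofLp v) := rfl
      rw [this, h0]
      rfl
    refine hKSU n k hk (wK n) ?_ _ x (fun c => T (WithLp.ofLp v) (dg c)) ?_ ?_ ?_
      (heig n k ρ p q hpq T hTB (wK n) x _ hx')
    · intro B
      unfold wK
      split_ifs
      · exact zero_le_one
      · exact le_refl _
    · intro c
      exact (hKGG n c).ge
    · obtain ⟨N, a', u, v', h1, h2⟩ := hspn n k ρ p q hpq T hTB (WithLp.ofLp v)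
      refine ⟨N, a', fun t i => conj (v' t i) * u t i, h1, fun c => ?_⟩
      show T (WithLp.ofLp v) (dg c) = _
      rw [h2]
      refine Finset.sum_congr rfl fun t _ => ?_
      rw [H59.bil_dg]
    · by_contra hc
      push Not at hc
      refine hv' (hndg n k ρ p q hpq T hTB _ ?_ hc)
      intro i h hh
      exact congrArg WithLp.ofLp (hv.1 i h hh)
  -- the restricted operator
  have hw : ∀ (τ : Equiv.Perm (Fin n)) B, wK n (B.map τ.toEmbedding) = wK n B := by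
    intro τ B
    unfold wK
    rw [Finset.card_map]
  have hmaps : ∀ v ∈ VS ρ, ((LOW.lapOp ρ (wK n) : ρ.Sp →L[ℂ] ρ.Sp) : ρ.Sp →ₗ[ℂ] ρ.Sp) v ∈ VS ρ :=
    fun v hv => lap_mem ρ (wK n) hw hv
  have hsym : ((LOW.lapOp ρ (wK n) : ρ.Sp →L[ℂ] ρ.Sp) : ρ.Sp →ₗ[ℂ] ρ.Sp).IsSymmetric := by
    intro x y
    show inner ℂ (LOW.lapOp ρ (wK n) x) y = inner ℂ x (LOW.lapOp ρ (wK n) y)
    conv_rhs => rw [← LOW.star_lapOp]
    rw [ContinuousLinearMap.star_eq_adjoint, ContinuousLinearMap.adjoint_inner_right]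
  have hsum : ∑ B : Finset (Fin n), wK n B * ‖f - ρ.P B f‖ ^ 2 =
      ((n : ℝ) * (n - 1) / 2) * ‖f - ρ.P {a, b} f‖ ^ 2 := by
    rw [← card_pairs, ← nsmul_eq_mul, ← Finset.sum_const, Finset.sum_filter]
    refine Finset.sum_congr rfl fun B _ => ?_
    unfold wK
    split_ifs with h
    · rw [one_mul, norm_pair ρ hS hab B h]
    · rw [zero_mul]
  have hray := rayleigh _ (hsym.restrict_invariant hmaps) ((3 * (n : ℝ) - 1) / 5)
    (fun x v hv0 hx => hev x v v.2 (fun h => hv0 (Subtype.ext h)) (congrArg Subtype.val hx))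
    (⟨f, hT, hS⟩ : VS ρ) (∑ B : Finset (Fin n), wK n B * ‖f - ρ.P B f‖ ^ 2) ?_
  · rw [hsum] at hray
    have h1 : ‖(⟨f, hT, hS⟩ : VS ρ)‖ = ‖f‖ := rfl
    rw [h1] at hray
    linarith
  · show inner ℂ f (LOW.lapOp ρ (wK n) f) = _
    rw [lapOp_apply, inner_sum, Complex.ofReal_sum]
    refine Finset.sum_congr rfl fun B _ => ?_
    rw [inner_smul_right]
    have h3 := LOW.inner_one_sub_P ρ B f
    have h4 : (1 - ρ.P B) f = f - ρ.P B f := rfl
    rw [h4] at h3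
    rw [h3]
    push_cast
    rfl

end Pool.Agent.GRA.H88
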